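import Mathlib
import Pool.Agent.R42.Flip.Bridge
import Pool.Agent.R42.Flip.Ball
import Pool.Agent.R42.Flip.Blow
import Pool.Agent.R42.Flip.Params
import Pool.Agent.R42.Flip.Upper

set_option autoImplicit false

/-!
# The quadratic growth constant for three-colour flip sequences is `5/4`
-/

namespace Pool.Agent.Results.MP_56a9b7_co.FlipConstant

/-- the closed neighbourhood `N[v]` -/
def closedNbhd {V : Type} (G : SimpleGraph V) (v : V) : Set V := {w | w = v ∨ G.Adj v w}

/-- number of edges of colour `j` incident with `v` -/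
noncomputable def edgesAt {V : Type} {k : ℕ} (G : SimpleGraph V) (f : Sym2 V → Fin k) (j : Fin k)
    (v : V) : ℕ :=
  Nat.card {w : V // G.Adj v w ∧ f s(v, w) = j}

/-- `e_j[v]`: number of edges of colour `j` with both endpoints in `N[v]` -/
noncomputable def edgesIn {V : Type} {k : ℕ} (G : SimpleGraph V) (f : Sym2 V → Fin k) (j : Fin k)
    (v : V) : ℕ :=
  Nat.card {x : Sym2 V // x ∈ G.edgeSet ∧ f x = j ∧ ∀ w ∈ x, w ∈ closedNbhd G v}

/-- `G` is an `(a_1, ..., a_k)`-flip graph: some colouring of the edges (only the values of `f` at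
edges matter) has exactly `a_j` edges of colour `j` at every vertex, and
`e_k[v] < ... < e_1[v]` for every vertex `v` -/
def IsFlipGraph {V : Type} {k : ℕ} (G : SimpleGraph V) (a : Fin k → ℕ) : Prop :=
  ∃ f : Sym2 V → Fin k, (∀ j v, edgesAt G f j v = a j) ∧
    ∀ v, StrictAnti fun j => edgesIn G f j v

/-- `k`-flip sequences: strictly increasing sequences of positive integers which have a (finite,
nonempty, simple) flip graph -/
def IsFlipSequence {k : ℕ} (a : Fin k → ℕ) : Prop :=
  (∀ j, 0 < a j) ∧ StrictMono a ∧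
    ∃ (V : Type) (_ : Finite V) (_ : Nonempty V) (G : SimpleGraph V), IsFlipGraph G a

/-- `c* = sup {c : there are infinitely many 3-flip sequences with a_3 ≥ c a_1^2}` -/
noncomputable def cStar : ℝ :=
  sSup {c : ℝ | {a : Fin 3 → ℕ | IsFlipSequence a ∧ (a 2 : ℝ) ≥ c * (a 0 : ℝ) ^ 2}.Infinite}

open Pool.Agent.R42.Flip

theorem construct {p t s X : ℕ} (hp : (p + 1).Prime) (hg : Good p t s X) :
    IsFlipSequence ![t * (2 * p + 1) - 1, 2 * p ^ 2 * s, 2 * p ^ 2 * (t - s) + X] := by
  obtain ⟨hs, hX, h12, h23, hE32, hE21⟩ := hg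
  have : Fact (p + 1).Prime := ⟨hp⟩
  have ht : 0 < t := by
    rcases Nat.eq_zero_or_pos t with h | h
    · subst h
      simp at hE21
    · exact h
  have : NeZero t := ⟨ht.ne'⟩
  have hp1 : 1 ≤ p := by
    have := hp.two_le
    omega
  have hcard : Fintype.card (ZMod (p + 1)) = p + 1 := ZMod.card _
  have hx : ∀ f g : Fl (ZMod (p + 1)), two f g → ¬ near f g := fun f g h => h.1
  let c := c1 (c0 (t := t) (near (F := ZMod (p + 1))) two s) X
  have hsymm : ∀ x y, c x y = c y x := c1_comm (c0_comm near_comm two_comm)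
  have h0 : ∀ x, c x x = 0 := c1_self c0_self
  have hle : ∀ x y, c x y ≤ 3 := c1_le c0_le
  obtain ⟨G, f, hGf⟩ := exists_cOf c hsymm h0 hle
  have hD1 : ∀ v, dd G f 0 v = t * (2 * p + 1) - 1 := by
    intro v
    rw [← D_cOf, hGf]
    show D c 1 v = _
    rw [D1 (by norm_num), D0_one near_refl (cn1 hcard)]
    simp
  have hD2 : ∀ v, dd G f 1 v = 2 * p ^ 2 * s := by
    intro v
    rw [← D_cOf, hGf]
    show D c 2 v = _
    rw [D1 (by norm_num), D0_two near_refl hx hs (cn2 hcard)]
    simp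
  have hD3 : ∀ v, dd G f 2 v = 2 * p ^ 2 * (t - s) + X := by
    intro v
    rw [← D_cOf, hGf]
    show D c 3 v = _
    rw [D1 (by norm_num), D0_three near_refl hx hs (cn2 hcard)]
    simp
  have hE1 : ∀ v, E c 1 v + t * (2 * p ^ 2 + 2 * p + 1) =
      t ^ 2 * (2 * p ^ 3 + 6 * p ^ 2 + 4 * p + 1) := by
    intro v
    rw [E1 c0_self (by norm_num)]
    simp only [OfNat.one_ne_ofNat, if_false, mul_zero, add_zero]
    exact E0_one near_refl (cNr hcard) (cB hcard) v.1
  have hE2 : ∀ v, E c 2 v = (4 * p ^ 3 + 2 * p ^ 2) * (t * s) := by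
    intro v
    rw [E1 c0_self (by norm_num), E0_two near_refl hx hs (cNb hcard)]
    simp
  have hE3 : ∀ v, E c 3 v = (4 * p ^ 3 + 2 * p ^ 2) * (t * (t - s)) + 2 * X := by
    intro v
    rw [E1 c0_self (by norm_num), E0_three near_refl hx hs (cNb hcard)]
    simp
  have hee1 : ∀ v, ee G f 1 v < ee G f 0 v := by
    intro v
    have h1 := E_cOf G f 1 v
    have h2 := E_cOf G f 0 v
    rw [hGf] at h1 h2
    have h1' : E c 2 v = 2 * ee G f 1 v := h1
    have h2' : E c 1 v = 2 * ee G f 0 v := h2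
    have h3 := hE1 v
    have h4 := hE2 v
    rw [← mul_assoc] at h4
    omega
  have hee2 : ∀ v, ee G f 2 v < ee G f 1 v := by
    intro v
    have h1 := E_cOf G f 1 v
    have h2 := E_cOf G f 2 v
    rw [hGf] at h1 h2
    have h1' : E c 2 v = 2 * ee G f 1 v := h1
    have h2' : E c 3 v = 2 * ee G f 2 v := h2
    have h3 := hE3 v
    have h4 := hE2 v
    rw [← mul_assoc] at h3 h4
    omega
  have ha1 : 0 < t * (2 * p + 1) - 1 := by
    have : 1 * 3 ≤ t * (2 * p + 1) := Nat.mul_le_mul ht (by omega)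
    omega
  refine ⟨?_, ?_, _, inferInstance, ⟨((0, 0, 0, 0), 0), (true, ⟨0, hX⟩)⟩, G, f, ?_, ?_⟩
  · intro j
    fin_cases j
    · exact ha1
    · exact lt_trans ha1 h12
    · exact lt_trans (lt_trans ha1 h12) h23
  · rw [Fin.strictMono_iff_lt_succ]
    intro j
    fin_cases j
    · exact h12
    · exact h23
  · intro j v
    fin_cases j
    · exact hD1 v
    · exact hD2 v
    · exact hD3 v
  · intro v
    rw [Fin.strictAnti_iff_succ_lt]
    intro j
    fin_cases j
    · exact hee1 v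
    · exact hee2 v

theorem upper {a : Fin 3 → ℕ} (h : IsFlipSequence a) : 4 * a 2 < 5 * a 0 ^ 2 := by
  obtain ⟨hpos, hmono, V, hV, hne, G, f, hd, he⟩ := h
  have := Fintype.ofFinite V
  have hcle : ∀ x y, cOf G f x y ≤ 3 := by
    intro x y
    unfold cOf
    split_ifs
    · have := (f s(x, y)).2
      omega
    · omega
  have hcs : ∀ x y, cOf G f x y = cOf G f y x := by
    intro x y
    unfold cOf
    by_cases h : G.Adj x y
    · rw [if_pos h, if_pos h.symm, Sym2.eq_swap]
    · rw [if_neg h, if_neg fun h' => h h'.symm]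
  have hc0 : ∀ x, cOf G f x x = 0 := by
    intro x
    simp [cOf]
  refine stUpper V (cOf G f) hcs hc0 hcle (a 0) (a 1) (a 2) ?_ ?_ ?_ (hpos 0)
    (hmono (by decide)) ?_
  · intro v
    rw [← hd 0 v]
    exact D_cOf G f 0 v
  · intro v
    rw [← hd 1 v]
    exact D_cOf G f 1 v
  · intro v
    rw [← hd 2 v]
    exact D_cOf G f 2 v
  · intro v
    have h1 : edgesIn G f 2 v < edgesIn G f 1 v := he v (by decide)
    have h2 : edgesIn G f 1 v < edgesIn G f 0 v := he v (by decide)
    have e0 : E (cOf G f) 1 v = 2 * edgesIn G f 0 v := E_cOf G f 0 v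
    have e1 : E (cOf G f) 2 v = 2 * edgesIn G f 1 v := E_cOf G f 1 v
    have e2 : E (cOf G f) 3 v = 2 * edgesIn G f 2 v := E_cOf G f 2 v
    omega

/-- `c* = 5/4`. -/
theorem result : cStar = 5 / 4 := by
  have hlub : IsLUB {c : ℝ | {a : Fin 3 → ℕ | IsFlipSequence a ∧
      (a 2 : ℝ) ≥ c * (a 0 : ℝ) ^ 2}.Infinite} (5 / 4) := by
    constructor
    · intro c hc
      obtain ⟨a, ha, hca⟩ := hc.nonempty
      have h1 := upper ha
      have h2 : (0 : ℝ) < a 0 := by exact_mod_cast ha.1 0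
      have h3 : 4 * (a 2 : ℝ) < 5 * (a 0 : ℝ) ^ 2 := by exact_mod_cast h1
      by_contra hcon
      push Not at hcon
      have h4 : (5 / 4 : ℝ) * (a 0 : ℝ) ^ 2 ≤ c * (a 0 : ℝ) ^ 2 :=
        mul_le_mul_of_nonneg_right hcon.le (by positivity)
      linarith
    · intro b hb
      apply le_of_forall_lt
      intro c hc
      obtain ⟨c', hc1, hc2⟩ := exists_between hc
      refine lt_of_lt_of_le hc1 (hb ?_)
      obtain ⟨p, hp, hN⟩ := stParams c' hc2
      show Set.Infinite _
      intro hfin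
      obtain ⟨M, hM⟩ := (hfin.image fun a : Fin 3 → ℕ => a 0).bddAbove
      obtain ⟨t, s, X, ht, hg, hc3⟩ := hN (M + 1)
      have h1 := construct hp hg
      have h2 : t * (2 * p + 1) - 1 ≤ M := by
        apply hM
        refine ⟨_, ⟨h1, ?_⟩, rfl⟩
        exact hc3
      have hp1 : 1 ≤ p := by
        have := hp.two_le
        omega
      have h3 : t * 3 ≤ t * (2 * p + 1) := Nat.mul_le_mul_left _ (by omega)
      omega
  exact hlub.csSup_eq ⟨0, by
    have : (0 : ℝ) < 5 / 4 := by norm_num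
    obtain ⟨p, hp, hN⟩ := stParams 0 this
    show Set.Infinite _
    intro hfin
    obtain ⟨M, hM⟩ := (hfin.image fun a : Fin 3 → ℕ => a 0).bddAbove
    obtain ⟨t, s, X, ht, hg, hc3⟩ := hN (M + 1)
    have h1 := construct hp hg
    have h2 : t * (2 * p + 1) - 1 ≤ M := by
      apply hM
      refine ⟨_, ⟨h1, ?_⟩, rfl⟩
      exact hc3
    have hp1 : 1 ≤ p := by
      have := hp.two_le
      omega
    have h3 : t * 3 ≤ t * (2 * p + 1) := Nat.mul_le_mul_left _ (by omega)
    omega⟩

end Pool.Agent.Results.MP_56a9b7_co.FlipConstant
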